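import Pool.Agent.Helper221.Ice.Cert

/-!
# Upper bounds for the residual entropies of the cubic lattice

`eulerCount n`, `iceCount n` are the numbers `b_n`, `a_n` of Eulerian orientations and of ice-rule
configurations of the `n × n × n` torus (start module `Pool.Agent.Helper653.IceUp`). The limits
`W_Eul` (all `n`) and `W_ice` (even `n`) exist by the start result `Limit`, with
`5/2 ≤ W_Eul ≤ 61^(1/4) = 2.7947` and `10/3 ≤ W_ice ≤ 318^(1/4) = 4.2229`. Here the upper bounds are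
`W_Eul ≤ 2.6301` and `W_ice ≤ 3.7273`, and for the ice model the `limsup` over ALL `n` is `W_ice`.
-/

namespace Pool.Agent.Results.MP_7c8df0_mp.StripBounds
open Finset Pool.Agent.Helper653.IceUp Pool.Agent.Helper653.IceTwo Pool.Agent.Helper221.Ice

theorem ice_strip (n : ℕ) (hn : 4 ≤ n) : (iceCount n : ℝ)^4 ≤ 193^(n^3) * (81^2)^(n^2) := by
  obtain ⟨m, rfl⟩ : ∃ m, n = m + 1 := ⟨n - 1, by omega⟩
  have h := Z_strip wIR JO ?_ ?_ wIR_nn 4 (m+1) (by decide) hn 193 (by norm_num) (fun p => by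
    obtain ⟨V, hV⟩ := Pool.Agent.Helper221.Ice.certI (p 0) (p 1) (p 2) (p 3)
    exact NB_I p V hV)
  · rw [iceCount_eq m]
    refine h.trans (le_of_eq ?_)
    congr 3
  · intro o1 o2 o3 i1 i2 i3
    unfold wIR JO
    congr 1
    revert o1 o2 o3 i1 i2 i3
    decide +kernel
  · intro o1 o2 o3 i1 i2 i3
    unfold wIR
    congr 1
    revert o1 o2 o3 i1 i2 i3
    decide +kernel

theorem euler_strip (n : ℕ) (hn : 6 ≤ n) : (eulerCount n : ℝ)^6 ≤ 331^(n^3) * (64^2)^(n^2) := by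
  obtain ⟨m, rfl⟩ : ∃ m, n = m + 1 := ⟨n - 1, by omega⟩
  have h := Z_strip wER Equiv.boolNot ?_ ?_ wER_nn 6 (m+1) (by decide) hn 331 (by norm_num)
    (fun p => by
      obtain ⟨V, hV⟩ := Pool.Agent.Helper221.Ice.certE (p 0) (p 1) (p 2) (p 3) (p 4) (p 5)
      exact NB_E p V hV)
  · rw [eulerCount_eq m]
    refine h.trans (le_of_eq ?_)
    congr 3
  · intro o1 o2 o3 i1 i2 i3
    unfold wER
    congr 1
    revert o1 o2 o3 i1 i2 i3
    decide +kernel
  · intro o1 o2 o3 i1 i2 i3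
    unfold wER
    congr 1
    revert o1 o2 o3 i1 i2 i3
    decide +kernel

lemma root_num (K x : ℝ) (L : ℕ) (hL : 0 < L) (hK : 0 ≤ K) (hx : 0 ≤ x) (h : K ≤ x^L) :
    K^((1:ℝ)/L) ≤ x := by
  have h1 : K^((1:ℝ)/L) ≤ (x^L)^((1:ℝ)/L) := Real.rpow_le_rpow hK h (by positivity)
  refine h1.trans (le_of_eq ?_)
  rw [one_div]
  exact Real.pow_rpow_inv_natCast hx (by omega)

/-- Upper bounds for the residual entropy constants of the cubic lattice. -/
theorem result :
    (∃ W : ℝ, 10/3 ≤ W ∧ W ≤ 3.7273 ∧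
      Filter.Tendsto (fun k : ℕ => (iceCount (2*k) : ℝ)^(1/(((2*k : ℕ):ℝ)^3)))
        Filter.atTop (nhds W) ∧
      ∀ ε : ℝ, 0 < ε → ∃ n0 : ℕ, ∀ n : ℕ, n0 ≤ n → (iceCount n : ℝ)^(1/((n:ℝ)^3)) ≤ W + ε) ∧
    (∃ W : ℝ, 5/2 ≤ W ∧ W ≤ 2.6301 ∧
      Filter.Tendsto (fun n : ℕ => (eulerCount n : ℝ)^(1/((n:ℝ)^3))) Filter.atTop (nhds W)) ∧
    (∀ n : ℕ, 4 ≤ n → (iceCount n : ℝ)^4 ≤ 193^(n^3) * (81^2)^(n^2)) ∧
    (∀ n : ℕ, 6 ≤ n → (eulerCount n : ℝ)^6 ≤ 331^(n^3) * (64^2)^(n^2)) := by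
  refine ⟨?_, ?_, ice_strip, euler_strip⟩
  · obtain ⟨W, h1, _, hlim, hW⟩ := Pool.Agent.Results.MP_7c8df0_mp.Limit.result.1
    refine ⟨W, h1, ?_, hlim, ?_⟩
    · refine le_trans ?_ (root_num 193 3.7273 4 (by norm_num) (by norm_num) (by norm_num)
        (by norm_num))
      refine le_of_forall_pos_le_add (fun ε hε => ?_)
      obtain ⟨n0, h0⟩ := root_bound' (fun n => (iceCount n : ℝ)) (fun n => by positivity) 193 (81^2)
        (by norm_num) (by norm_num) 4 (by norm_num) ice_strip ε hε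
      refine le_of_tendsto hlim ?_
      filter_upwards [Filter.eventually_ge_atTop n0] with k hk
      have := h0 (2*k) (by omega)
      simpa using this
    · intro ε hε
      have hev := hlim.eventually (gt_mem_nhds (show W < W + ε by linarith))
      obtain ⟨k0, hk0⟩ := Filter.eventually_atTop.mp hev
      refine ⟨2*(k0+1), fun n hn => ?_⟩
      refine le_trans ?_ (hk0 (k0+1) (by omega)).le
      exact Pool.Agent.Results.MP_7c8df0_mp.Limit.root_cmp _ _ (by positivity) (by positivity)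
        (2*(k0+1)) n (by omega) (by omega)
        (Pool.Agent.Results.MP_7c8df0_mp.Limit.ice_mono (2*(k0+1)) n (by omega) (by simp) hn)
  · obtain ⟨W, h1, _, hlim, _⟩ := Pool.Agent.Results.MP_7c8df0_mp.Limit.result.2
    refine ⟨W, h1, ?_, hlim⟩
    refine le_trans ?_ (root_num 331 2.6301 6 (by norm_num) (by norm_num) (by norm_num)
      (by norm_num))
    refine le_of_forall_pos_le_add (fun ε hε => ?_)
    obtain ⟨n0, h0⟩ := root_bound' (fun n => (eulerCount n : ℝ)) (fun n => by positivity) 331 (64^2)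
      (by norm_num) (by norm_num) 6 (by norm_num) euler_strip ε hε
    refine le_of_tendsto hlim ?_
    filter_upwards [Filter.eventually_ge_atTop n0] with k hk
    have := h0 k hk
    simpa using this

end Pool.Agent.Results.MP_7c8df0_mp.StripBounds
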